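import Pool.Agent.U834.GSP.StmA

set_option autoImplicit false

open scoped Matrix.Norms.L2Operator Matrix
open Finset

namespace Pool.Agent.U460.GSP.WEA

open Pool.Agent.U834.GSP

theorem t_WEA : S_SSR → S_WEA := by
  intro hS m 𝒜
  haveI : IsSemisimpleRing 𝒜 := hS m 𝒜
  haveI : FiniteDimensional ℂ 𝒜 :=
    FiniteDimensional.finiteDimensional_submodule (Subalgebra.toSubmodule 𝒜.toSubalgebra)
  obtain ⟨k, d, -, ⟨Φ⟩⟩ := IsSemisimpleRing.exists_algEquiv_pi_matrix_of_isAlgClosed ℂ 𝒜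
  refine ⟨k, d, Φ, ?_⟩
  rw [Φ.toLinearEquiv.finrank_eq, Module.finrank_pi_fintype]
  refine Finset.sum_congr rfl fun i _ => ?_
  rw [Module.finrank_matrix]
  simp [sq]

end Pool.Agent.U460.GSP.WEA
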