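import Pool.Agent.Q98.SPN.Stm

set_option autoImplicit false

open scoped Matrix.Norms.L2Operator Matrix
open Finset

namespace Pool.Agent.U460.GSP.COLS

open Pool.Agent.Q98.SPN

theorem t_COLS : S_COLS := by
  intro d Q l b hb hQ r e he hl
  have h1 : (Q.submatrix id e)ᴴ * Q.submatrix id e =
      Matrix.diagonal (fun j => ((l (e j) : ℝ) : ℂ)) := by
    ext i j
    have h2 := congrFun (congrFun hQ (e i)) (e j)
    simp only [Matrix.mul_apply, Matrix.conjTranspose_apply, Matrix.submatrix_apply, id_eq] at h2 ⊢
    rw [h2, Matrix.diagonal_apply, Matrix.diagonal_apply]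
    by_cases hij : i = j
    · subst hij; simp
    · rw [if_neg hij, if_neg (fun h => hij (he h))]
  have h2 : 0 ≤ fun j => l (e j) := by
    intro j
    have h3 := congrFun (congrFun h1 j) j
    rw [Matrix.diagonal_apply_eq, Matrix.mul_apply] at h3
    have h4 : (0 : ℝ) ≤ (∑ k, (Q.submatrix id e)ᴴ j k * Q.submatrix id e k j).re := by
      rw [Complex.re_sum]
      refine Finset.sum_nonneg fun k _ => ?_
      simp only [Matrix.conjTranspose_apply, RCLike.star_def]
      rw [mul_comm, Complex.mul_conj]
      exact_mod_cast Complex.normSq_nonneg _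
    rw [h3] at h4
    simpa using h4
  have h3 : ‖Q.submatrix id e‖ * ‖Q.submatrix id e‖ ≤ b * b := by
    rw [← Matrix.l2_opNorm_conjTranspose_mul_self, h1, Matrix.l2_opNorm_diagonal]
    refine (pi_norm_le_iff_of_nonneg (by positivity)).2 fun j => ?_
    rw [Complex.norm_real, Real.norm_of_nonneg (h2 j), ← sq]
    exact hl j
  exact abs_le_of_sq_le_sq' (by nlinarith) hb |>.2

end Pool.Agent.U460.GSP.COLS
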