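import Pool.Agent.Q98.SPN.Stm

set_option autoImplicit false

open scoped Matrix.Norms.L2Operator Matrix ComplexOrder
open Finset

namespace Pool.Agent.U460.GSP.SPEC

open Pool.Agent.Q98.SPN

lemma spec {d : ℕ} (M : Matrix (Fin d) (Fin d) ℂ) (hP : M.PosSemidef) :
    ∃ (U : Matrix (Fin d) (Fin d) ℂ) (l : Fin d → ℝ), U * Uᴴ = 1 ∧ Uᴴ * U = 1 ∧ (∀ j, 0 ≤ l j) ∧
      M = U * Matrix.diagonal (fun j => ((l j : ℝ) : ℂ)) * Uᴴ := by
  have hH : M.IsHermitian := hP.1
  refine ⟨(hH.eigenvectorUnitary : Matrix (Fin d) (Fin d) ℂ), hH.eigenvalues, ?_, ?_,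
    fun j => hP.eigenvalues_nonneg j, ?_⟩
  · have := (Matrix.mem_unitaryGroup_iff
      (A := (hH.eigenvectorUnitary : Matrix (Fin d) (Fin d) ℂ))).1 hH.eigenvectorUnitary.2
    simpa [Matrix.star_eq_conjTranspose] using this
  · have := (Matrix.mem_unitaryGroup_iff'
      (A := (hH.eigenvectorUnitary : Matrix (Fin d) (Fin d) ℂ))).1 hH.eigenvectorUnitary.2
    simpa [Matrix.star_eq_conjTranspose] using this
  · exact hH.spectral_theorem

theorem t_SPEC : S_SPEC := by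
  intro d Y
  obtain ⟨U, l, hUU, hUU', hl, hs⟩ := spec (Yᴴ * Y) (Matrix.posSemidef_conjTranspose_mul_self Y)
  set D : Matrix (Fin d) (Fin d) ℂ := Matrix.diagonal (fun j => ((l j : ℝ) : ℂ)) with hD
  refine ⟨U, l, hUU, hUU', hl, ?_, ?_⟩
  · have e : (Y * U)ᴴ * (Y * U) = Uᴴ * (Yᴴ * Y) * U := by
      rw [Matrix.conjTranspose_mul]
      simp only [Matrix.mul_assoc]
    rw [e, hs]
    calc Uᴴ * (U * D * Uᴴ) * U = (Uᴴ * U) * D * (Uᴴ * U) := by simp only [Matrix.mul_assoc]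
      _ = D := by rw [hUU']; simp
  · intro κ
    have hp : (Yᴴ * Y) ^ κ = U * D ^ κ * Uᴴ := by
      induction κ with
      | zero => simp [hUU]
      | succ κ ih =>
        rw [pow_succ, ih, hs]
        calc U * D ^ κ * Uᴴ * (U * D * Uᴴ) = U * D ^ κ * (Uᴴ * U) * D * Uᴴ := by
              simp only [Matrix.mul_assoc]
          _ = U * D ^ (κ + 1) * Uᴴ := by
              rw [hUU', pow_succ]; simp only [Matrix.mul_assoc, Matrix.mul_one]
    unfold tk
    rw [hp, Matrix.trace_mul_comm, ← Matrix.mul_assoc, hUU', Matrix.one_mul, hD, Matrix.diagonal_pow,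
      Matrix.trace_diagonal, Complex.re_sum]
    refine Finset.sum_congr rfl fun j _ => ?_
    simp only [Pi.pow_apply]
    rw [← Complex.ofReal_pow, Complex.ofReal_re]

end Pool.Agent.U460.GSP.SPEC
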