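import Pool.Agent.Q98.SPN.Stm

set_option autoImplicit false

open scoped Matrix.Norms.L2Operator Matrix ComplexOrder
open Finset

namespace Pool.Agent.U460.GSP.TKN

open Pool.Agent.Q98.SPN

theorem t_TKN : S_TKN := by
  intro d κ Y
  unfold tk
  have h1 : ((Yᴴ * Y) ^ κ).PosSemidef := (Matrix.posSemidef_conjTranspose_mul_self Y).pow κ
  have h2 := h1.trace_nonneg
  exact (Complex.le_def.1 h2).1

end Pool.Agent.U460.GSP.TKN
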